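import Pool.Agent.Helper94.UP.Sheet

open scoped ZeroAtInfty ContDiff NNReal
open Set Filter Topology MeasureTheory

namespace Pool.Agent.Helper94.UP

theorem gl_geom (K : ℕ) : ∑ n ∈ Finset.range K, (1 / 2 : ℝ) ^ (n + 1) ≤ 1 := by
  have h : ∑ n ∈ Finset.range K, (1 / 2 : ℝ) ^ (n + 1) = 1 - (1 / 2) ^ K := by
    induction K with
    | zero => simp
    | succ K ih =>
      rw [Finset.sum_range_succ, ih]
      ring
  rw [h]
  have : (0 : ℝ) ≤ (1 / 2) ^ K := by positivity
  linarith

theorem stGL.{u} (hPU : ST_PU.{u}) (hLG : ST_LG.{u}) (hGA : ST_GA.{u}) : ST_GL.{u} := by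
  intro k X _ _ q M hM hq1 hq2 g b B c r h e L1 κ ε hL1 hκ hε hb hb01 hB hbB hr hb1 hb0 hcov hh
    hhL hhe he heε heB
  obtain ⟨p1, p2, p3, p4⟩ := hPU (k := k) b B hb hb01 hB hbB
  have hval : ∀ x N, b N x = 1 → Kg b h x = ∑ n ∈ Finset.range (N + 1), psi b n x * h n x :=
    fun x N hN => (hGA b h x N hN).1
  have hsum : ∀ x N, b N x = 1 → ∑ n ∈ Finset.range (N + 1), psi b n x = 1 := by
    intro x N hN
    rw [p3 (N + 1) x, (hGA b h x N hN).2]
    ring
  have hpz : ∀ n x, 3 / 4 * r n ≤ ‖x - c n‖ → psi b n x = 0 := by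
    intro n x hx
    unfold psi
    rw [hb0 n x hx, zero_mul]
  have hcont : ∀ n, Continuous (fun x : X => ‖x - c n‖) := by
    intro n
    fun_prop
  refine ⟨?_, ?_, ?_⟩
  · rw [contDiff_iff_contDiffAt]
    intro z
    obtain ⟨N, hN⟩ := hcov z
    have hev0 : ∀ᶠ x in 𝓝 z, ‖x - c N‖ < r N / 2 :=
      (hcont N).continuousAt.eventually (gt_mem_nhds hN)
    have hev : Kg b h =ᶠ[𝓝 z] (fun x => ∑ n ∈ Finset.range (N + 1), psi b n x * h n x) := by
      filter_upwards [hev0] with x hx
      exact hval x N (hb1 N x hx.le)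
    refine ContDiffAt.congr_of_eventuallyEq ?_ hev
    refine ContDiff.contDiffAt ?_
    exact ContDiff.sum fun n _ => (p1 n).mul (hh n)
  · refine hLG q (Kg b h) (L1 + κ) (by linarith) ?_
    intro z
    obtain ⟨N, hN⟩ := hcov z
    have hev : ∀ᶠ x in 𝓝 z, ‖x - c N‖ < r N / 2 ∧ ∀ n ∈ Finset.range (N + 1),
        (‖z - c n‖ ≤ 7 / 8 * r n → ‖x - c n‖ ≤ r n) ∧
        (7 / 8 * r n < ‖z - c n‖ → 3 / 4 * r n ≤ ‖x - c n‖) := by
      refine Filter.Eventually.and ((hcont N).continuousAt.eventually (gt_mem_nhds hN)) ?_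
      rw [Filter.eventually_all_finset]
      intro n _
      have hrn := hr n
      by_cases hz : ‖z - c n‖ ≤ 7 / 8 * r n
      · have h1 : ∀ᶠ x in 𝓝 z, ‖x - c n‖ < r n :=
          (hcont n).continuousAt.eventually (gt_mem_nhds (by linarith))
        filter_upwards [h1] with x hx
        exact ⟨fun _ => hx.le, fun h2 => absurd hz (not_le.2 h2)⟩
      · rw [not_le] at hz
        have h1 : ∀ᶠ x in 𝓝 z, 3 / 4 * r n < ‖x - c n‖ :=
          (hcont n).continuousAt.eventually (lt_mem_nhds (by linarith))
        filter_upwards [h1] with x hx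
        exact ⟨fun h2 => absurd h2 (not_le.2 hz), fun _ => hx.le⟩
    obtain ⟨ρ, hρ, hball⟩ := Metric.eventually_nhds_iff.1 hev
    refine ⟨ρ, hρ, fun x y hx hy => ?_⟩
    obtain ⟨hx1, hx2⟩ := hball (y := x) (by rw [dist_eq_norm]; exact hx)
    obtain ⟨hy1, hy2⟩ := hball (y := y) (by rw [dist_eq_norm]; exact hy)
    have hbx : b N x = 1 := hb1 N x hx1.le
    have hby : b N y = 1 := hb1 N y hy1.le
    have key : Kg b h x - Kg b h y =
        ∑ n ∈ Finset.range (N + 1), psi b n x * (h n x - h n y) +
          ∑ n ∈ Finset.range (N + 1), (psi b n x - psi b n y) * (h n y - g y) := by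
      rw [hval x N hbx, hval y N hby]
      have h1 : ∑ n ∈ Finset.range (N + 1), (psi b n x - psi b n y) * g y = 0 := by
        rw [← Finset.sum_mul, Finset.sum_sub_distrib, hsum x N hbx, hsum y N hby]
        ring
      have h2 : ∀ n, psi b n x * (h n x - h n y) + (psi b n x - psi b n y) * (h n y - g y) =
          psi b n x * h n x - psi b n y * h n y - (psi b n x - psi b n y) * g y := by
        intro n
        ring
      rw [← Finset.sum_add_distrib, Finset.sum_congr rfl (fun n _ => h2 n),
        Finset.sum_sub_distrib, Finset.sum_sub_distrib, h1]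
      ring
    rw [key]
    have hqn : 0 ≤ q (x - y) := apply_nonneg q _
    have t1 : |∑ n ∈ Finset.range (N + 1), psi b n x * (h n x - h n y)| ≤ L1 * q (x - y) := by
      calc |∑ n ∈ Finset.range (N + 1), psi b n x * (h n x - h n y)|
          ≤ ∑ n ∈ Finset.range (N + 1), |psi b n x * (h n x - h n y)| :=
            Finset.abs_sum_le_sum_abs _ _
        _ ≤ ∑ n ∈ Finset.range (N + 1), psi b n x * (L1 * q (x - y)) :=
            Finset.sum_le_sum fun n _ => by
              rw [abs_mul, abs_of_nonneg (p2 n x)]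
              exact mul_le_mul_of_nonneg_left (hhL n x y) (p2 n x)
        _ = L1 * q (x - y) := by rw [← Finset.sum_mul, hsum x N hbx, one_mul]
    have t2 : |∑ n ∈ Finset.range (N + 1), (psi b n x - psi b n y) * (h n y - g y)| ≤
        κ * q (x - y) := by
      calc |∑ n ∈ Finset.range (N + 1), (psi b n x - psi b n y) * (h n y - g y)|
          ≤ ∑ n ∈ Finset.range (N + 1), |(psi b n x - psi b n y) * (h n y - g y)| :=
            Finset.abs_sum_le_sum_abs _ _
        _ ≤ ∑ n ∈ Finset.range (N + 1), κ * q (x - y) * (1 / 2) ^ (n + 1) :=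
            Finset.sum_le_sum fun n hn => by
              by_cases hz : ‖z - c n‖ ≤ 7 / 8 * r n
              · have a1 : |h n y - g y| ≤ e n := hhe n y ((hy2 n hn).1 hz)
                have a2 := p4 n x y
                have a3 : ‖x - y‖ ≤ M * q (x - y) := hq2 _
                have hS : 0 ≤ ∑ m ∈ Finset.range (n + 1), B m :=
                  Finset.sum_nonneg fun m _ => hB m
                rw [abs_mul]
                calc |psi b n x - psi b n y| * |h n y - g y|
                    ≤ ((∑ m ∈ Finset.range (n + 1), B m) * (M * q (x - y))) * e n :=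
                      mul_le_mul (a2.trans (mul_le_mul_of_nonneg_left a3 hS)) a1 (abs_nonneg _)
                        (mul_nonneg hS (mul_nonneg hM.le hqn))
                  _ = (e n * (∑ m ∈ Finset.range (n + 1), B m) * M) * q (x - y) := by ring
                  _ ≤ (κ * (1 / 2) ^ (n + 1)) * q (x - y) :=
                      mul_le_mul_of_nonneg_right (heB n) hqn
                  _ = κ * q (x - y) * (1 / 2) ^ (n + 1) := by ring
              · rw [not_le] at hz
                rw [hpz n x ((hx2 n hn).2 hz), hpz n y ((hy2 n hn).2 hz), sub_self, zero_mul,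
                  abs_zero]
                positivity
        _ = κ * q (x - y) * ∑ n ∈ Finset.range (N + 1), (1 / 2 : ℝ) ^ (n + 1) := by
            rw [Finset.mul_sum]
        _ ≤ κ * q (x - y) * 1 :=
            mul_le_mul_of_nonneg_left (gl_geom _) (mul_nonneg hκ.le hqn)
        _ = κ * q (x - y) := mul_one _
    have t3 := abs_add_le (∑ n ∈ Finset.range (N + 1), psi b n x * (h n x - h n y))
      (∑ n ∈ Finset.range (N + 1), (psi b n x - psi b n y) * (h n y - g y))
    linarith
  · intro x
    obtain ⟨N, hN⟩ := hcov x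
    have hbx : b N x = 1 := hb1 N x hN.le
    have h1 : Kg b h x - g x = ∑ n ∈ Finset.range (N + 1), psi b n x * (h n x - g x) := by
      rw [hval x N hbx]
      simp only [mul_sub]
      rw [Finset.sum_sub_distrib, ← Finset.sum_mul, hsum x N hbx, one_mul]
    rw [h1]
    calc |∑ n ∈ Finset.range (N + 1), psi b n x * (h n x - g x)|
        ≤ ∑ n ∈ Finset.range (N + 1), |psi b n x * (h n x - g x)| :=
          Finset.abs_sum_le_sum_abs _ _
      _ ≤ ∑ n ∈ Finset.range (N + 1), psi b n x * ε :=
          Finset.sum_le_sum fun n _ => by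
            by_cases hz : 3 / 4 * r n ≤ ‖x - c n‖
            · rw [hpz n x hz]
              simp
            · rw [not_le] at hz
              have h2 := hhe n x (by linarith [hr n])
              rw [abs_mul, abs_of_nonneg (p2 n x)]
              exact mul_le_mul_of_nonneg_left (h2.trans (heε n)) (p2 n x)
      _ = ε := by rw [← Finset.sum_mul, hsum x N hbx, one_mul]

end Pool.Agent.Helper94.UP
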